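import Pool.Agent.Horo.Final

/-!
# Problem MP_943ece_an, Q1: full answer (yes)

There is an Abelian differential `A` on a closed Riemann surface which does not lie in the
omega-limit set of its own Teichmüller horocycle orbit.

* Model: `Pool/Agent/Horo/Model.lean` (`AbDiff`, `AbelianDifferential`, `horocycle`, `Near`,
  `Converges`, `InOmegaLimit`); `Pool/Agent/Horo/Holo.lean` checks that the natural coordinates
  form a complex manifold on which `ω` is a holomorphic one-form, `Pool/Agent/Horo/Flow.lean` that
  `horocycle` is a flow, `Pool/Agent/Horo/Sanity.lean` that `horocycle s A` is near `A` for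
  small `s`.
* Proof: `Pool/Agent/Horo/Final.lean` (`Horo.main_all`).
-/

namespace Pool.Agent.Results.MP_943ece_an.NotInOmegaLimit

theorem result : ∃ A : Horo.AbelianDifferential, ¬ Horo.InOmegaLimit A A :=
  Horo.notInOmega Horo.main_all

end Pool.Agent.Results.MP_943ece_an.NotInOmegaLimit
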